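import Mathlib

/-!
# Relational structures coloured by a finite core

Definitions.  `S` is the set of relation symbols, `ar` gives their arities, and a structure with
domain `A` is a family `R : ∀ s, (Fin (ar s) → A) → Prop` of relations.
-/

namespace Pool.Agent.R786.RC

/-- homomorphisms -/
def IsHom {S : Type} (ar : S → ℕ) {A B : Type} (R : ∀ s, (Fin (ar s) → A) → Prop)
    (T : ∀ s, (Fin (ar s) → B) → Prop) (f : A → B) : Prop :=
  ∀ s x, R s x → T s (fun i => f (x i))

/-- the operation `f`, with arguments indexed by `ι`, preserves all relations -/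
def IsPol {S : Type} (ar : S → ℕ) {A : Type} (R : ∀ s, (Fin (ar s) → A) → Prop) {ι : Type}
    (f : (ι → A) → A) : Prop :=
  ∀ s (x : ι → Fin (ar s) → A), (∀ i, R s (x i)) → R s (fun j => f (fun i => x i j))

/-- every endomorphism is injective (for a finite structure: it is a core) -/
def IsCore {S : Type} (ar : S → ℕ) {A : Type} (R : ∀ s, (Fin (ar s) → A) → Prop) : Prop :=
  ∀ f : A → A, IsHom ar R R f → Function.Injective f

/-- the product structure -/
def prodR {S : Type} (ar : S → ℕ) {C H : Type} (R : ∀ s, (Fin (ar s) → C) → Prop)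
    (T : ∀ s, (Fin (ar s) → H) → Prop) : ∀ s, (Fin (ar s) → C × H) → Prop :=
  fun s x => R s (fun i => (x i).1) ∧ T s (fun i => (x i).2)

/-- The colouring `col` of the structure `R` by the structure `T` is rich for the binary relation
`lt`: it is a homomorphism; every `lt`-increasing tuple of elements whose colours are related in
`T` is related in `R`; and every finite set of elements has, in every colour, an element that is
`lt`-below all of them and an element that is `lt`-above all of them. -/
structure Rich {S : Type} (ar : S → ℕ) {A H : Type} (R : ∀ s, (Fin (ar s) → A) → Prop)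
    (T : ∀ s, (Fin (ar s) → H) → Prop) (col : A → H) (lt : A → A → Prop) : Prop where
  hom : IsHom ar R T col
  lift : ∀ s x, (∀ i j, i < j → lt (x i) (x j)) → T s (fun i => col (x i)) → R s x
  below : ∀ (U : Finset A) (h : H), ∃ a, col a = h ∧ ∀ u ∈ U, lt a u
  above : ∀ (U : Finset A) (h : H), ∃ a, col a = h ∧ ∀ u ∈ U, lt u a

/-- the pseudo-Siggers identity holds in the polymorphisms of `R` -/
def PseudoSiggers {S : Type} (ar : S → ℕ) {A : Type} (R : ∀ s, (Fin (ar s) → A) → Prop) : Prop :=
  ∃ (f : (Fin 6 → A) → A) (α β : A → A), IsPol ar R f ∧ IsHom ar R R α ∧ IsHom ar R R β ∧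
    ∀ x y z, α (f ![x, y, z, x, y, z]) = β (f ![y, z, x, z, x, y])

end Pool.Agent.R786.RC
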