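import Pool.Agent.R786.RC.Defs

namespace Pool.Agent.R786.RC

open Function

variable {S : Type} {ar : S → ℕ} {A C H : Type} {R : ∀ s, (Fin (ar s) → A) → Prop}
  {Q : ∀ s, (Fin (ar s) → C) → Prop} {T : ∀ s, (Fin (ar s) → H) → Prop}
  {col : A → H} {lt : A → A → Prop}

/-- `f` may be applied at a single position -/
def Pos (T : ∀ s, (Fin (ar s) → H) → Prop) (f : H → H) : Prop :=
  ∀ s x, T s x → ∀ i, T s (update x i (f (x i)))

theorem Pos.many {f : H → H} (hf : Pos T f) {s : S} {x : Fin (ar s) → H} (hx : T s x)
    (P : Finset (Fin (ar s))) : T s (fun i => if i ∈ P then f (x i) else x i) := by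
  classical
  induction P using Finset.induction_on with
  | empty => simpa using hx
  | insert a P ha ih =>
    have := hf s _ ih a
    simp only [ha, if_false] at this
    convert this using 1
    funext i
    by_cases hi : i = a
    · subst hi; simp
    · simp [hi]

theorem Pos.eq_id (hc : IsCore ar T) {f : H → H} (hf : Pos T f) (x0 : H) : f x0 = x0 := by
  classical
  by_contra hne
  have hg : IsHom ar T T (fun z => if z = x0 then f x0 else z) := by
    intro s x hx
    have := hf.many hx (Finset.univ.filter fun i => x i = x0)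
    convert this using 1
    funext i
    by_cases hi : x i = x0
    · simp [hi]
    · simp [hi]
  have h1 : (if x0 = x0 then f x0 else x0) = (if f x0 = x0 then f x0 else f x0) := by simp
  exact hne (hc _ hg h1).symm

theorem exists_inv [Finite H] (hc : IsCore ar T) {τ : H → H} (hτ : IsHom ar T T τ) :
    ∃ τ' : H → H, IsHom ar T T τ' ∧ (∀ x, τ' (τ x) = x) ∧ ∀ x, τ (τ' x) = x := by
  let e : Equiv.Perm H := Equiv.ofBijective τ ((Finite.injective_iff_bijective).1 (hc τ hτ))
  have he : ∀ x, e x = τ x := fun x => rfl
  have hpow : ∀ k : ℕ, IsHom ar T T (⇑(e ^ k)) := by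
    intro k
    induction k with
    | zero => intro s x h; simpa using h
    | succ k ih =>
      intro s x h
      rw [pow_succ']
      simp only [Equiv.Perm.mul_apply, he]
      exact hτ _ _ (ih _ _ h)
  have hpos : 0 < orderOf e := orderOf_pos e
  have hinv : e⁻¹ = e ^ (orderOf e - 1) := by
    rw [eq_comm, eq_inv_iff_mul_eq_one, ← pow_succ, Nat.sub_add_cancel hpos, pow_orderOf_eq_one]
  refine ⟨⇑(e⁻¹), hinv ▸ hpow _, fun x => ?_, fun x => ?_⟩
  · rw [← he]; exact e.symm_apply_apply x
  · rw [← he]; exact e.apply_symm_apply x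

/-- if all threshold mixtures of two endomorphisms preserve the relations, they are equal -/
theorem eq_of_threshold [Finite H] (hc : IsCore ar T) {τ τ' : H → H} (h1 : IsHom ar T T τ)
    (h2 : IsHom ar T T τ')
    (h3 : ∀ s x, T s x → ∀ k : ℕ, T s (fun j => if j.val < k then τ (x j) else τ' (x j))) :
    τ' = τ := by
  obtain ⟨i, hi, hi1, hi2⟩ := exists_inv hc h1
  set ρ : H → H := fun x => i (τ' x) with hρ
  have hρh : IsHom ar T T ρ := fun s x h => hi _ _ (h2 _ _ h)
  have thr : ∀ s x, T s x → ∀ k : ℕ, T s (fun j => if j.val < k then x j else ρ (x j)) := by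
    intro s x hx k
    have := hi _ _ (h3 s x hx k)
    convert this using 1
    funext j
    by_cases hj : j.val < k
    · simp [hj, hi1]
    · simp [hj, hρ]
  have thrn : ∀ (m : ℕ) s x, T s x → ∀ k : ℕ,
      T s (fun j => if j.val < k then x j else ρ^[m] (x j)) := by
    intro m
    induction m with
    | zero => intro s x hx k; simpa using hx
    | succ m ih =>
      intro s x hx k
      have := thr s _ (ih s x hx k) k
      convert this using 1
      funext j
      by_cases hj : j.val < k
      · simp [hj]
      · simp only [hj, if_false, Function.iterate_succ_apply']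
  obtain ⟨ρ', hρ', hr1, hr2⟩ := exists_inv hc hρh
  let e : Equiv.Perm H := ⟨ρ, ρ', hr1, hr2⟩
  have hper : ∃ n, 0 < n ∧ ∀ y, ρ^[n] y = y := by
    refine ⟨orderOf e, orderOf_pos e, fun y => ?_⟩
    have h4 : (⇑(e ^ orderOf e)) y = y := by rw [pow_orderOf_eq_one]; rfl
    rw [← Equiv.Perm.iterate_eq_pow] at h4
    exact h4
  obtain ⟨n, hn, hper⟩ := hper
  have hpos : Pos T ρ := by
    intro s x hx a
    have := thrn (n - 1) s _ (thr s x hx a.val) (a.val + 1)
    convert this using 1
    funext j
    rcases lt_trichotomy j.val a.val with hj | hj | hj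
    · have h5 : j ≠ a := by rintro rfl; exact lt_irrefl _ hj
      rw [update_of_ne h5]
      simp [hj, Nat.lt_succ_of_lt hj]
    · have h5 : j = a := Fin.ext hj
      subst h5
      simp
    · have h5 : j ≠ a := by rintro rfl; exact lt_irrefl _ hj
      rw [update_of_ne h5]
      have h6 : ¬ j.val < a.val := by omega
      have h7 : ¬ j.val < a.val + 1 := by omega
      simp only [h6, h7, if_false]
      rw [← Function.iterate_succ_apply, Nat.succ_eq_add_one, Nat.sub_add_cancel hn, hper]
  funext x
  have h6 := hpos.eq_id hc x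
  rw [hρ] at h6
  have h7 : τ (i (τ' x)) = τ x := by rw [show i (τ' x) = x from h6]
  rwa [hi2] at h7

/-- two-sided monochromatic rows -/
theorem rows [Finite H] (hr : Rich ar R T col lt) (U : Finset A) {X : Type} [Finite X]
    (χ : (H → A) → X) :
    ∃ (wd wu : ℕ → H → A) (t t' : X),
      (∀ n h, col (wd n h) = h) ∧ (∀ n h, col (wu n h) = h) ∧
      (∀ n m, n < m → ∀ h h', lt (wd m h) (wd n h')) ∧
      (∀ n m, n < m → ∀ h h', lt (wu n h) (wu m h')) ∧
      (∀ n m h h', lt (wd n h) (wu m h')) ∧
      (∀ n h, ∀ u ∈ U, lt (wd n h) u ∧ lt u (wu n h)) ∧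
      (∀ n, χ (wd n) = t) ∧ ∀ n, χ (wu n) = t' := by
  classical
  have := Fintype.ofFinite H
  choose dn hdn1 hdn2 using fun U h => hr.below U h
  choose up hup1 hup2 using fun U h => hr.above U h
  let D : Finset A → Finset A := fun V => V ∪ Finset.univ.image (dn V)
  let W : Finset A → Finset A := fun V => D V ∪ Finset.univ.image (up (D V))
  let V : ℕ → Finset A := fun n => Nat.rec U (fun _ s => W s) n
  have hV : ∀ n, V (n + 1) = W (V n) := fun n => rfl
  have hVD : ∀ n, V n ⊆ D (V n) := fun n => Finset.subset_union_left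
  have hDV : ∀ n, D (V n) ⊆ V (n + 1) := fun n => by rw [hV]; exact Finset.subset_union_left
  have hmono : ∀ i j, i ≤ j → V i ⊆ V j := by
    intro i j hij
    induction j, hij using Nat.le_induction with
    | base => exact fun _ h => h
    | succ j _ ih => exact (ih.trans (hVD j)).trans (hDV j)
  have hdnmem : ∀ n h, dn (V n) h ∈ D (V n) := fun n h =>
    Finset.mem_union_right _ (Finset.mem_image_of_mem _ (Finset.mem_univ _))
  have hupmem : ∀ n h, up (D (V n)) h ∈ V (n + 1) := fun n h => by
    rw [hV]
    exact Finset.mem_union_right _ (Finset.mem_image_of_mem _ (Finset.mem_univ _))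
  have sub : ∀ c : ℕ → X, ∃ (φ : ℕ → ℕ) (t : X), StrictMono φ ∧ ∀ n, c (φ n) = t := by
    intro c
    obtain ⟨t, ht⟩ := Finite.exists_infinite_fiber c
    have hinf : (c ⁻¹' {t}).Infinite := Set.infinite_coe_iff.1 ht
    refine ⟨Nat.nth (fun n => n ∈ c ⁻¹' {t}), t, Nat.nth_strictMono hinf, fun n => ?_⟩
    exact Nat.nth_mem_of_infinite hinf n
  obtain ⟨φ, t, hφ, hφt⟩ := sub (fun n => χ (dn (V n)))
  obtain ⟨ψ, t', hψ, hψt⟩ := sub (fun n => χ (up (D (V n))))
  refine ⟨fun n => dn (V (φ n)), fun n => up (D (V (ψ n))), t, t', fun n h => hdn1 _ _,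
    fun n h => hup1 _ _, ?_, ?_, ?_, ?_, hφt, hψt⟩
  · intro n m hnm h h'
    apply hdn2
    exact hmono (φ n + 1) (φ m) (hφ hnm) (hDV _ (hdnmem _ _))
  · intro n m hnm h h'
    apply hup2
    exact hVD _ (hmono (ψ n + 1) (ψ m) (hψ hnm) (hupmem _ _))
  · intro n m h h'
    rcases le_or_gt (φ n) (ψ m) with h1 | h1
    · apply hup2
      rcases h1.eq_or_lt with h2 | h2
      · rw [← h2]; exact hdnmem _ _
      · exact hVD _ (hmono (φ n + 1) (ψ m) h2 (hDV _ (hdnmem _ _)))
    · apply hdn2
      exact hmono (ψ m + 1) (φ n) h1 (hupmem _ _)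
  · intro n h u hu
    exact ⟨hdn2 _ _ _ (hmono 0 _ (Nat.zero_le _) hu),
      hup2 _ _ _ (hVD _ (hmono 0 _ (Nat.zero_le _) hu))⟩

/-- The colour part of an endomorphism. -/
theorem color [Finite H] (hr : Rich ar R T col lt) (hc : IsCore ar T) {α : A → A}
    (hα : IsHom ar R R α) : ∃ σ : H → H, IsHom ar T T σ ∧ ∀ a, col (α a) = σ (col a) := by
  classical
  have := Fintype.ofFinite H
  choose ref href using fun h => (hr.below ∅ h)
  -- main claim: for each `q` there is one endomorphism describing `q` and all reference points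
  have main : ∀ q : A, ∃ τ : H → H, IsHom ar T T τ ∧ col (α q) = τ (col q) ∧
      ∀ h, col (α (ref h)) = τ h := by
    intro q
    obtain ⟨wd, wu, t, t', hd1, hu1, hd2, hu2, hdu, hU, hdt, hut⟩ := rows hr
      (insert q (Finset.univ.image ref)) (fun w : H → A => fun h => col (α (w h)))
    have hdt' : ∀ n h, col (α (wd n h)) = t h := fun n h => congrFun (hdt n) h
    have hut' : ∀ n h, col (α (wu n h)) = t' h := fun n h => congrFun (hut n) h
    -- the mixtures
    have mix : ∀ s x, T s x → ∀ k : ℕ,
        T s (fun j => if j.val < k then t (x j) else t' (x j)) := by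
      intro s x hx k
      have h1 : R s (fun j => if j.val < k then wd (ar s - j.val) (x j) else wu j.val (x j)) := by
        apply hr.lift
        · intro i j hij
          have hij' : i.val < j.val := hij
          have hi := i.2
          have hj := j.2
          by_cases h1 : i.val < k
          · by_cases h2 : j.val < k
            · simp only [h1, h2, if_true]
              exact hd2 _ _ (by omega) _ _
            · simp only [h1, h2, if_true, if_false]
              exact hdu _ _ _ _
          · have h2 : ¬ j.val < k := by omega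
            simp only [h1, h2, if_false]
            exact hu2 _ _ hij' _ _
        · convert hx using 1
          funext j
          by_cases h1 : j.val < k
          · simp [h1, hd1]
          · simp [h1, hu1]
      have h2 := hr.hom _ _ (hα _ _ h1)
      convert h2 using 1
      funext j
      by_cases h1 : j.val < k
      · simp [h1, hdt']
      · simp [h1, hut']
    have ht : IsHom ar T T t := by
      intro s x hx
      have := mix s x hx (ar s)
      convert this using 1
      funext j
      simp
    have ht' : IsHom ar T T t' := by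
      intro s x hx
      have := mix s x hx 0
      convert this using 1
      funext j
      simp
    have htt : t' = t := eq_of_threshold hc ht ht' mix
    subst htt
    obtain ⟨i, hi, hi1, hi2⟩ := exists_inv hc ht
    have point : ∀ u, u ∈ insert q (Finset.univ.image ref) → col (α u) = t' (col u) := by
      intro u hu
      have hpos : Pos T (fun z => if z = col u then i (col (α u)) else z) := by
        intro s x hx a
        by_cases ha : x a = col u
        · simp only [ha, if_true]
          have h1 : R s (fun j => if j.val < a.val then wd (ar s - j.val) (x j) else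
              if j.val = a.val then u else wu j.val (x j)) := by
            apply hr.lift
            · intro k j hkj
              have hkj' : k.val < j.val := hkj
              have hk := k.2
              have hj := j.2
              by_cases h1 : k.val < a.val
              · by_cases h2 : j.val < a.val
                · simp only [h1, h2, if_true]
                  exact hd2 _ _ (by omega) _ _
                · by_cases h3 : j.val = a.val
                  · simp only [if_pos h1, if_neg h2, if_pos h3]
                    exact (hU _ _ u hu).1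
                  · simp only [if_pos h1, if_neg h2, if_neg h3]
                    exact hdu _ _ _ _
              · have h2 : ¬ j.val < a.val := by omega
                have h3 : ¬ j.val = a.val := by omega
                by_cases h4 : k.val = a.val
                · simp only [if_neg h1, if_neg h2, if_neg h3, if_pos h4]
                  exact (hU _ _ u hu).2
                · simp only [h1, h2, h3, h4, if_false]
                  exact hu2 _ _ hkj' _ _
            · convert hx using 1
              funext j
              by_cases h1 : j.val < a.val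
              · simp [h1, hd1]
              · by_cases h2 : j.val = a.val
                · have h3 : j = a := Fin.ext h2
                  subst h3
                  simp [ha]
                · simp [h1, h2, hu1]
          have h2 := hi _ _ (hr.hom _ _ (hα _ _ h1))
          convert h2 using 1
          funext j
          by_cases h1 : j.val < a.val
          · have h3 : j ≠ a := by rintro rfl; exact lt_irrefl _ h1
            rw [update_of_ne h3]
            simp only [h1, if_true, hdt', hi1]
          · by_cases h2 : j.val = a.val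
            · have h3 : j = a := Fin.ext h2
              subst h3
              simp
            · have h3 : j ≠ a := by rintro rfl; exact h2 rfl
              rw [update_of_ne h3]
              simp only [h1, h2, if_false, hut', hi1]
        · simp only [ha, if_false, update_eq_self]
          exact hx
      have h5 := hpos.eq_id hc (col u)
      simp only [if_true] at h5
      rw [← hi2 (col (α u)), h5]
    refine ⟨t', ht, point q (Finset.mem_insert_self _ _), fun h => ?_⟩
    rw [point (ref h) (Finset.mem_insert_of_mem (Finset.mem_image_of_mem _ (Finset.mem_univ _))),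
      (href h).1]
  rcases isEmpty_or_nonempty A with hA | ⟨⟨q0⟩⟩
  · exact ⟨id, fun _ _ h => h, fun a => hA.elim a⟩
  · obtain ⟨σ, hσ, -, hσr⟩ := main q0
    refine ⟨σ, hσ, fun a => ?_⟩
    obtain ⟨τ, -, hτq, hτr⟩ := main a
    have : τ = σ := funext fun h => (hτr h).symm.trans (hσr h)
    rw [← this]
    exact hτq

/-- Finite systems of pseudo-minor identities descend. -/
theorem descend [Finite H] (hr : Rich ar R T col lt) (hc : IsCore ar T)
    {κ : Type} [Finite κ] {a : κ → Type} [∀ k, Finite (a k)] {μ : Type}
    (f : ∀ k, (a k → A) → A) (hf : ∀ k, IsPol ar R (f k))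
    (α : μ → A → A) (hα : ∀ m, IsHom ar R R (α m)) :
    ∃ (g : ∀ k, (a k → H) → H) (σ : μ → H → H), (∀ k, IsPol ar T (g k)) ∧
      (∀ m, IsHom ar T T (σ m)) ∧
      ∀ (V : Type) (k l : κ) (m n : μ) (π : a k → V) (ρ : a l → V),
        (∀ x : V → A, α m (f k (x ∘ π)) = α n (f l (x ∘ ρ))) →
        ∀ x : V → H, σ m (g k (x ∘ π)) = σ n (g l (x ∘ ρ)) := by
  classical
  choose σ hσ hσ' using fun m => color hr hc (hα m)
  obtain ⟨wd, wu, t, t', hd1, hu1, hd2, hu2, hdu, hU, hdt, hut⟩ := rows hr ∅
    (fun w : H → A => fun (k : κ) (x : a k → H) => col (f k (fun i => w (x i))))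
  have hut' : ∀ n k x, col (f k (fun i => wu n (x i))) = t' k x := fun n k x =>
    congrFun (congrFun (hut n) k) x
  refine ⟨t', σ, ?_, hσ, ?_⟩
  · intro k s x hx
    have h1 : ∀ i, R s (fun j => wu j.val (x i j)) := by
      intro i
      apply hr.lift
      · intro j j' hjj
        exact hu2 _ _ hjj _ _
      · convert hx i using 1
        funext j
        exact hu1 _ _
    have h2 := hr.hom _ _ (hf k s _ h1)
    convert h2 using 1
    funext j
    exact (hut' j.val k _).symm
  · intro V k l m n π ρ h x
    have := congrArg col (h (fun v => wu 0 (x v)))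
    rw [hσ', hσ'] at this
    rw [← hut' 0 k, ← hut' 0 l]
    exact this

theorem pseudoSiggers_down [Finite H] (hr : Rich ar R T col lt) (hc : IsCore ar T)
    (h : PseudoSiggers ar R) : PseudoSiggers ar T := by
  obtain ⟨s, α, β, hs, hα, hβ, hid⟩ := h
  obtain ⟨g, σ, hg, hσ, key⟩ := descend hr hc (κ := Unit) (a := fun _ => Fin 6) (μ := Bool)
    (fun _ => s) (fun _ => hs) (fun b => cond b α β) (by intro b; cases b; exacts [hβ, hα])
  refine ⟨g (), σ true, σ false, hg (), hσ _, hσ _, fun x y z => ?_⟩
  have h1 := key (Fin 3) () () true false ![0, 1, 2, 0, 1, 2] ![1, 2, 0, 2, 0, 1] (by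
    intro u
    have e1 : (u ∘ ![0, 1, 2, 0, 1, 2] : Fin 6 → A) = ![u 0, u 1, u 2, u 0, u 1, u 2] := by
      funext i; fin_cases i <;> rfl
    have e2 : (u ∘ ![1, 2, 0, 2, 0, 1] : Fin 6 → A) = ![u 1, u 2, u 0, u 2, u 0, u 1] := by
      funext i; fin_cases i <;> rfl
    rw [e1, e2]
    exact hid _ _ _) ![x, y, z]
  have e1 : ((![x, y, z] : Fin 3 → H) ∘ ![0, 1, 2, 0, 1, 2] : Fin 6 → H) =
      ![x, y, z, x, y, z] := by
    funext i; fin_cases i <;> rfl
  have e2 : ((![x, y, z] : Fin 3 → H) ∘ ![1, 2, 0, 2, 0, 1] : Fin 6 → H) =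
      ![y, z, x, z, x, y] := by
    funext i; fin_cases i <;> rfl
  rw [e1, e2] at h1
  exact h1

theorem pseudoSiggers_prod (h1 : PseudoSiggers ar Q) (h2 : PseudoSiggers ar T) :
    PseudoSiggers ar (prodR ar Q T) := by
  obtain ⟨s, α, β, hs, hα, hβ, hid⟩ := h1
  obtain ⟨s', α', β', hs', hα', hβ', hid'⟩ := h2
  refine ⟨fun x => (s fun i => (x i).1, s' fun i => (x i).2), fun p => (α p.1, α' p.2),
    fun p => (β p.1, β' p.2), ?_, ?_, ?_, ?_⟩
  · intro k x h
    exact ⟨hs k (fun i j => (x i j).1) fun i => (h i).1,
      hs' k (fun i j => (x i j).2) fun i => (h i).2⟩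
  · intro k x h; exact ⟨hα _ _ h.1, hα' _ _ h.2⟩
  · intro k x h; exact ⟨hβ _ _ h.1, hβ' _ _ h.2⟩
  · intro x y z
    have e1 : ∀ {B : Type} (f : C × H → B), (fun i => f ((![x, y, z, x, y, z] : Fin 6 → C × H) i)) =
        ![f x, f y, f z, f x, f y, f z] := by
      intro B f; funext i; fin_cases i <;> rfl
    have e2 : ∀ {B : Type} (f : C × H → B), (fun i => f ((![y, z, x, z, x, y] : Fin 6 → C × H) i)) =
        ![f y, f z, f x, f z, f x, f y] := by
      intro B f; funext i; fin_cases i <;> rfl
    simp only [e1 Prod.fst, e1 Prod.snd, e2 Prod.fst, e2 Prod.snd, hid, hid']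

/-- Products are rich. -/
theorem rich_prod {lt : C → C → Prop} (h0 : ∀ s x, (∀ i j, i < j → lt (x i) (x j)) → Q s x)
    (h1 : ∀ U : Finset C, (∃ d, ∀ u ∈ U, lt d u) ∧ ∃ e, ∀ u ∈ U, lt u e) :
    Rich ar (prodR ar Q T) T Prod.snd (fun p q => lt p.1 q.1) := by
  classical
  refine ⟨fun s x h => h.2, fun s x h h' => ⟨h0 s _ h, h'⟩, fun U h => ?_, fun U h => ?_⟩
  · obtain ⟨d, hd⟩ := (h1 (U.image Prod.fst)).1
    exact ⟨(d, h), rfl, fun u hu => hd _ (Finset.mem_image_of_mem _ hu)⟩
  · obtain ⟨d, hd⟩ := (h1 (U.image Prod.fst)).2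
    exact ⟨(d, h), rfl, fun u hu => hd _ (Finset.mem_image_of_mem _ hu)⟩

end Pool.Agent.R786.RC
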